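import Mathlib

/-!
The defining relations of the simple `n`-Lie algebra are satisfied by an alternating bracket.
-/

namespace Pool.Agent.Work.MP_2df8e9_al

open Equiv Finset

theorem exists_bracket (F : Type*) [Field F] (n : ℕ) (V : Type*) [AddCommGroup V] [Module F V]
    (e : Module.Basis (Fin (n + 1)) F V) :
    ∃ br : V [⋀^Fin n]→ₗ[F] V, ∀ i : Fin (n + 1),
      br (fun k => e (i.succAbove k)) = (-1 : F) ^ (n + ((i : ℕ) + 1) + 1) • e i := by
  refine ⟨∑ l : Fin (n + 1), (-1 : F) ^ n • (e.det.curryLeft (e l)).smulRight (e l), fun i => ?_⟩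
  have hsum : ∀ (s : Finset (Fin (n + 1))) (f : Fin (n + 1) → V [⋀^Fin n]→ₗ[F] V) (w : Fin n → V),
      (∑ l ∈ s, f l) w = ∑ l ∈ s, f l w := by
    intro s f w
    induction s using Finset.induction_on with
    | empty => simp
    | insert a s ha ih => simp [Finset.sum_insert ha, ih]
  rw [hsum, Finset.sum_eq_single i]
  · have h1 : (Matrix.vecCons (e i) fun k => e (i.succAbove k)) = e ∘ (Fin.cycleRange i).symm := by
      ext k : 1
      refine Fin.cases ?_ (fun k => ?_) k <;> simp
    simp only [AlternatingMap.smul_apply, AlternatingMap.smulRight_apply,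
      AlternatingMap.curryLeft_apply_apply, h1, AlternatingMap.map_perm, Module.Basis.det_self,
      smul_smul, Perm.sign_symm, Fin.sign_cycleRange]
    congr 1
    simp [Units.smul_def, pow_add]
  · intro l _ hl
    obtain ⟨k, rfl⟩ := Fin.exists_succAbove_eq hl
    have h2 : e.det (Matrix.vecCons (e (i.succAbove k)) fun k => e (i.succAbove k)) = 0 :=
      e.det.map_eq_zero_of_eq _ (i := 0) (j := k.succ) (by simp) (Fin.succ_ne_zero k).symm
    simp [h2]
  · simp

end Pool.Agent.Work.MP_2df8e9_al
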