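import Mathlib

-- merged part: Pool.Agent.Work.MP_2df8e9_al.Clifford
section
/-!
Standard polynomials evaluated on anticommuting families, and on such a family together
with one commuting element.
-/

namespace Pool.Agent.Work.MP_2df8e9_al

open Equiv Finset

universe u

section Std

variable (F : Type*) [Field F] (A : Type*) [Ring A] [Algebra F A]

/-- The standard polynomial of degree `k` as an alternating map. -/
noncomputable def stdAlt (k : ℕ) : A [⋀^Fin k]→ₗ[F] A :=
  MultilinearMap.alternatization (MultilinearMap.mkPiAlgebraFin F k A)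

variable {F A}

lemma stdAlt_apply (k : ℕ) (x : Fin k → A) :
    stdAlt F A k x = ∑ σ : Perm (Fin k), Perm.sign σ • (List.ofFn fun i => x (σ i)).prod := by
  simp [stdAlt, MultilinearMap.alternatization_apply, MultilinearMap.domDomCongr_apply]

lemma stdAlt_succ (k : ℕ) (x : Fin (k + 1) → A) :
    stdAlt F A (k + 1) x =
      ∑ i : Fin (k + 1), (-1 : F) ^ (i : ℕ) • (x i * stdAlt F A k fun j => x (i.succAbove j)) := by
  rw [stdAlt_apply, Finset.univ_perm_fin_succ, ← Finset.univ_product_univ]
  simp only [Finset.sum_map, Equiv.toEmbedding_apply, Finset.sum_product]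
  refine Finset.sum_congr rfl fun i _ => Fin.cases ?_ (fun i => ?_) i
  · simp [stdAlt_apply, List.ofFn_succ, Finset.mul_sum, Equiv.Perm.decomposeFin.symm_sign,
      Equiv.Perm.decomposeFin_symm_apply_succ, Units.smul_def, -zsmul_eq_mul]
  · have h1 : (stdAlt F A k fun j => x (swap 0 i.succ j.succ)) =
        Perm.sign i.cycleRange • stdAlt F A k fun j => x (i.succ.succAbove j) := by
      rw [← AlternatingMap.map_perm]
      congr 1
      ext j
      simp [Fin.succAbove_cycleRange]
    have h2 : ∑ σ : Perm (Fin k), Perm.sign (Perm.decomposeFin.symm (i.succ, σ)) •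
        (List.ofFn fun j => x (Perm.decomposeFin.symm (i.succ, σ) j)).prod =
        -(x i.succ * stdAlt F A k fun j => x (swap 0 i.succ j.succ)) := by
      rw [stdAlt_apply, Finset.mul_sum, ← Finset.sum_neg_distrib]
      refine Finset.sum_congr rfl fun σ _ => ?_
      simp [List.ofFn_succ, Equiv.Perm.decomposeFin.symm_sign,
        Equiv.Perm.decomposeFin_symm_apply_succ, Fin.succ_ne_zero, Units.smul_def, -zsmul_eq_mul]
    rw [h2, h1, Fin.sign_cycleRange, Fin.val_succ, pow_succ]
    rcases neg_one_pow_eq_or ℤˣ (i : ℕ) with h | h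
    · have h' : (-1 : F) ^ (i : ℕ) = 1 := by
        have := congrArg (fun t : ℤˣ => ((t : ℤ) : F)) h
        simpa using this
      rw [h, h']
      simp
    · have h' : (-1 : F) ^ (i : ℕ) = -1 := by
        have := congrArg (fun t : ℤˣ => ((t : ℤ) : F)) h
        simpa using this
      rw [h, h']
      simp

/-- A family whose distinct members anticommute. -/
def AntiComm {k : ℕ} (x : Fin k → A) : Prop :=
  ∀ i j, i ≠ j → x i * x j = -(x j * x i)

lemma AntiComm.comp {k l : ℕ} {x : Fin k → A} (h : AntiComm x) (f : Fin l → Fin k)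
    (hf : Function.Injective f) : AntiComm fun j => x (f j) :=
  fun _ _ hij => h _ _ fun e => hij (hf e)

lemma mul_prod_succAbove : ∀ (k : ℕ) (x : Fin (k + 1) → A), AntiComm x → ∀ i : Fin (k + 1),
    (-1 : F) ^ (i : ℕ) • (x i * (List.ofFn fun j => x (i.succAbove j)).prod) =
      (List.ofFn x).prod
  | 0, x, _, i => by
      have : i = 0 := Subsingleton.elim (α := Fin 1) _ _
      subst this
      simp
  | k + 1, x, h, i => by
      refine Fin.cases ?_ (fun i => ?_) i
      · simp
      · have ih := mul_prod_succAbove k (fun j => x j.succ) (h.comp _ (Fin.succ_injective _)) i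
        rw [List.ofFn_succ (f := x), List.prod_cons, ← ih, List.ofFn_succ, List.prod_cons]
        simp only [Fin.succ_succAbove_zero, Fin.succ_succAbove_succ, Fin.val_succ, pow_succ]
        rw [← mul_assoc, h i.succ 0 (Fin.succ_ne_zero i)]
        simp [mul_assoc]

lemma stdAlt_antiComm : ∀ (k : ℕ) (x : Fin k → A), AntiComm x →
    stdAlt F A k x = (k.factorial : F) • (List.ofFn x).prod
  | 0, x, _ => by simp [stdAlt_apply]
  | k + 1, x, h => by
      rw [stdAlt_succ]
      have : ∀ i : Fin (k + 1),
          (-1 : F) ^ (i : ℕ) • (x i * stdAlt F A k fun j => x (i.succAbove j)) =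
            (k.factorial : F) • (List.ofFn x).prod := by
        intro i
        rw [stdAlt_antiComm k _ (h.comp _ Fin.succAbove_right_injective), mul_smul_comm,
          smul_comm, mul_prod_succAbove k x h i]
      rw [Finset.sum_congr rfl fun i _ => this i, Finset.sum_const, Finset.card_univ,
        Fintype.card_fin, ← Nat.cast_smul_eq_nsmul F, smul_smul, Nat.factorial_succ]
      push_cast
      rfl

lemma stdAlt_central : ∀ (k : ℕ) (x : Fin (k + 1) → A), AntiComm (fun j : Fin k => x j.succ) →
    (∀ j : Fin k, x j.succ * x 0 = x 0 * x j.succ) →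
    stdAlt F A (k + 1) x =
      if Even k then (k.factorial : F) • (x 0 * (List.ofFn fun j : Fin k => x j.succ).prod) else 0
  | 0, x, _, _ => by simp [stdAlt_apply]
  | k + 1, x, h, hz => by
      rw [stdAlt_succ, Fin.sum_univ_succ]
      have h0 : (stdAlt F A (k + 1) fun j => x ((0 : Fin (k + 2)).succAbove j)) =
          ((k + 1).factorial : F) • (List.ofFn fun j : Fin (k + 1) => x j.succ).prod := by
        simpa using stdAlt_antiComm (F := F) (k + 1) _ h
      have h1 : ∀ i : Fin (k + 1),
          (-1 : F) ^ ((i.succ : Fin (k + 2)) : ℕ) •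
            (x i.succ * stdAlt F A (k + 1) fun j => x (i.succ.succAbove j)) =
          if Even k then
            -((k.factorial : F) • (x 0 * (List.ofFn fun j : Fin (k + 1) => x j.succ).prod))
          else 0 := by
        intro i
        have ih := stdAlt_central k (fun j => x (i.succ.succAbove j))
          (by simpa using h.comp _ (Fin.succAbove_right_injective (p := i)))
          (by intro j; simpa using hz _)
        rw [ih]
        split_ifs with hk
        · have h2 := mul_prod_succAbove (F := F) k (fun j => x j.succ) h i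
          simp only [Fin.succ_succAbove_zero, Fin.succ_succAbove_succ, Fin.val_succ, pow_succ]
          rw [← h2, mul_smul_comm, ← mul_assoc, hz i, mul_assoc, mul_smul_comm, smul_smul,
            smul_smul, ← neg_smul]
          congr 1
          ring
        · simp
      rw [Finset.sum_congr rfl fun i _ => h1 i, h0, Finset.sum_const, Finset.card_univ,
        Fintype.card_fin]
      by_cases hk : Even k
      · have hk' : ¬ Even (k + 1) := by simpa [Nat.even_add_one] using hk
        rw [if_pos hk, if_neg hk', ← Nat.cast_smul_eq_nsmul F, smul_neg, smul_smul,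
          Nat.factorial_succ]
        push_cast
        simp
      · have hk' : Even (k + 1) := by simpa [Nat.even_add_one] using hk
        rw [if_neg hk, if_pos hk']
        simp

lemma mul_prod_of_anti (a : A) : ∀ (k : ℕ) (x : Fin k → A), (∀ j, a * x j = -(x j * a)) →
    a * (List.ofFn x).prod = (-1 : F) ^ k • ((List.ofFn x).prod * a)
  | 0, x, _ => by simp
  | k + 1, x, h => by
      rw [List.ofFn_succ, List.prod_cons, ← mul_assoc, h 0, neg_mul, mul_assoc,
        mul_prod_of_anti a k (fun j => x j.succ) fun j => h _]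
      simp [pow_succ, mul_assoc]

lemma prod_sq : ∀ (k : ℕ) (x : Fin k → A), AntiComm x → (∀ j, x j * x j = 1) →
    ∃ ε : F, ε ≠ 0 ∧ (List.ofFn x).prod * (List.ofFn x).prod = ε • (1 : A)
  | 0, x, _, _ => ⟨1, one_ne_zero, by simp⟩
  | k + 1, x, h, hs => by
      obtain ⟨ε, hε, hP⟩ := prod_sq k (fun j => x j.succ) (h.comp _ (Fin.succ_injective _))
        fun j => hs _
      refine ⟨(-1) ^ k * ε, mul_ne_zero (pow_ne_zero _ (by simp)) hε, ?_⟩
      have h1 := mul_prod_of_anti (F := F) (x 0) k (fun j => x j.succ)
        fun j => h _ _ (Fin.succ_ne_zero j).symm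
      rw [List.ofFn_succ, List.prod_cons]
      nth_rewrite 1 [h1]
      rw [smul_mul_assoc, mul_assoc, ← mul_assoc (x 0), hs 0, one_mul, hP, smul_smul]

end Std

/-- Gamma matrices exist in a nonzero finite-dimensional algebra. -/
lemma exists_gamma (F : Type u) [Field F] : ∀ n : ℕ,
    ∃ (A : Type u) (_ : Ring A) (_ : Algebra F A) (_ : Module.Finite F A) (_ : Nontrivial A)
      (γ : Fin n → A), AntiComm γ ∧ ∀ j, γ j * γ j = 1
  | 0 => ⟨F, inferInstance, inferInstance, inferInstance, inferInstance, Fin.elim0,
      fun i => i.elim0, fun i => i.elim0⟩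
  | n + 1 => by
      obtain ⟨A, _, _, _, _, γ, h1, h2⟩ := exists_gamma F n
      refine ⟨Matrix (Fin 2) (Fin 2) A, inferInstance, inferInstance, inferInstance,
        inferInstance, Fin.cons !![0, 1; 1, 0] fun j => !![γ j, 0; 0, -γ j], ?_, ?_⟩
      · intro i j
        refine Fin.cases ?_ (fun i => ?_) i <;> refine Fin.cases ?_ (fun j => ?_) j
        · intro h; exact absurd rfl h
        · intro _
          ext a b
          fin_cases a <;> fin_cases b <;> simp
        · intro _
          ext a b
          fin_cases a <;> fin_cases b <;> simp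
        · intro h
          have h' : i ≠ j := fun e => h (by rw [e])
          ext a b
          fin_cases a <;> fin_cases b <;> simp [h1 i j h']
      · intro j
        refine Fin.cases ?_ (fun j => ?_) j
        · ext a b
          fin_cases a <;> fin_cases b <;> simp
        · ext a b
          fin_cases a <;> fin_cases b <;> simp [h2 j]

end Pool.Agent.Work.MP_2df8e9_al
end

-- merged part: Pool.Agent.Work.MP_2df8e9_al.Main
section
/-!
The embedding of the simple `n`-Lie algebra, `n` odd, in the alternating `n`-ary algebra of a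
finite-dimensional associative algebra.
-/

namespace Pool.Agent.Work.MP_2df8e9_al

open Equiv Finset

universe u v

/-- An injective map `Fin n → Fin (n+1)` is `succAbove i` after a permutation. -/
lemma exists_perm_succAbove {n : ℕ} (v : Fin n → Fin (n + 1)) (hv : Function.Injective v) :
    ∃ (i : Fin (n + 1)) (τ : Perm (Fin n)), ∀ k, v k = i.succAbove (τ k) := by
  have hns : ¬ Function.Surjective v := by
    intro hs
    have := Fintype.card_le_of_surjective v hs
    simp at this
  obtain ⟨i, hi⟩ : ∃ i, ∀ k, v k ≠ i := by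
    simpa [Function.Surjective] using hns
  choose f hf using fun k => Fin.exists_succAbove_eq (hi k)
  have hfi : Function.Injective f := by
    intro a b hab
    apply hv
    rw [← hf a, ← hf b, hab]
  exact ⟨i, Equiv.ofBijective f (Finite.injective_iff_bijective.mp hfi), fun k => (hf k).symm⟩

section

variable {F : Type u} [Field F] {A : Type v} [Ring A] [Algebra F A]

lemma prod_smul (u : F) : ∀ (k : ℕ) (x : Fin k → A),
    (List.ofFn fun j => u • x j).prod = u ^ k • (List.ofFn x).prod
  | 0, x => by simp
  | k + 1, x => by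
      rw [List.ofFn_succ, List.prod_cons, List.ofFn_succ (f := x), List.prod_cons,
        prod_smul u k fun j => x j.succ]
      simp [smul_smul, pow_succ, mul_comm]

/-- The family realising the relations of the simple `n`-Lie algebra, `n = m + 1` odd. -/
lemma exists_family [IsAlgClosed F] [CharZero F] [Nontrivial A] (m : ℕ) (hm : Even m)
    (hm0 : m ≠ 0) (γ : Fin (m + 1) → A) (h1 : AntiComm γ) (h2 : ∀ j, γ j * γ j = 1) :
    ∃ X : Fin (m + 2) → A, LinearIndependent F X ∧ ∀ i : Fin (m + 2),
      stdAlt F A (m + 1) (fun k => X (i.succAbove k)) =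
        (-1 : F) ^ (m + 1 + ((i : ℕ) + 1) + 1) • X i := by
  set ω : A := (List.ofFn γ).prod with hω
  obtain ⟨ε, hε, hωω⟩ := prod_sq (F := F) (m + 1) γ h1 h2
  rw [← hω] at hωω
  have hev : (-1 : F) ^ m = 1 := hm.neg_one_pow
  -- the product with one factor omitted
  have hom : ∀ i : Fin (m + 1), (List.ofFn fun j => γ (i.succAbove j)).prod =
      (-1 : F) ^ (i : ℕ) • (γ i * ω) := by
    intro i
    rw [hω, ← mul_prod_succAbove (F := F) m γ h1 i, mul_smul_comm, smul_smul, ← mul_assoc, h2 i,
      one_mul, ← mul_pow]
    simp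
  have hcomm : ∀ i : Fin (m + 1), γ i * ω = ω * γ i := by
    intro i
    have h3 := mul_prod_of_anti (F := F) (γ i) m (fun j => γ (i.succAbove j))
      fun j => h1 _ _ (Fin.succAbove_ne i j).symm
    rw [hev, one_smul] at h3
    rw [hω, ← mul_prod_succAbove (F := F) m γ h1 i, mul_smul_comm, smul_mul_assoc, mul_assoc,
      ← h3]
  have hf1 : ((m + 1).factorial : F) ≠ 0 := by exact_mod_cast Nat.factorial_ne_zero _
  have hf2 : (m.factorial : F) ≠ 0 := by exact_mod_cast Nat.factorial_ne_zero _
  obtain ⟨u, hu⟩ := IsAlgClosed.exists_pow_nat_eq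
    (-(((m + 1).factorial : F) * (m.factorial : F) * ε)⁻¹) (n := 2 * m) (by omega)
  have hu' : ((m + 1).factorial : F) * (m.factorial : F) * ε * u ^ (2 * m) = -1 := by
    rw [hu]
    field_simp
  have hu0 : u ≠ 0 := by
    rintro rfl
    rw [zero_pow (by omega)] at hu'
    simp at hu'
  set c : F := -(((m + 1).factorial : F) * u ^ (m + 1)) with hc
  have hc0 : c ≠ 0 := neg_ne_zero.mpr (mul_ne_zero hf1 (pow_ne_zero _ hu0))
  have hanti : AntiComm fun j => u • γ j := by
    intro i j hij
    simp only [smul_mul_assoc, mul_smul_comm]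
    rw [h1 i j hij]
    simp
  refine ⟨Fin.cons (c • ω) fun j => u • γ j, ?_, ?_⟩
  · rw [Fintype.linearIndependent_iff]
    intro g hg
    rw [Fin.sum_univ_succ] at hg
    simp only [Fin.cons_zero, Fin.cons_succ, smul_smul] at hg
    set s : A := ∑ i : Fin (m + 1), (g i.succ * u) • γ i with hs
    have hs1 : s = -((g 0 * c) • ω) := eq_neg_of_add_eq_zero_right hg
    have hs2 : ∀ j, s * γ j = γ j * s := by
      intro j
      rw [hs1]
      simp [hcomm j]
    have hs3 : ∀ j, s * γ j + γ j * s = (2 * (g j.succ * u)) • (1 : A) := by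
      intro j
      rw [hs, Finset.sum_mul, Finset.mul_sum, ← Finset.sum_add_distrib,
        Finset.sum_eq_single j]
      · simp only [smul_mul_assoc, mul_smul_comm, h2 j]
        rw [← add_smul, two_mul]
      · intro i _ hij
        simp only [smul_mul_assoc, mul_smul_comm]
        rw [h1 i j hij]
        simp
      · simp
    have hs4 : ∀ j, s = (g j.succ * u) • γ j := by
      intro j
      have h3 := hs3 j
      rw [← hs2 j, ← two_smul F, mul_smul] at h3
      have h4 := smul_right_injective A (two_ne_zero (α := F)) h3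
      calc s = s * γ j * γ j := by rw [mul_assoc, h2 j, mul_one]
        _ = (g j.succ * u) • γ j := by rw [h4]; simp
    have hs5 : ∀ j : Fin (m + 1), g j.succ * u = 0 := by
      intro j
      obtain ⟨k, hk⟩ : ∃ k : Fin (m + 1), k ≠ j := by
        have : Nontrivial (Fin (m + 1)) := Fin.nontrivial_iff_two_le.mpr (by omega)
        exact exists_ne j
      have h3 := hs2 k
      rw [hs4 j, smul_mul_assoc, mul_smul_comm, h1 k j hk, smul_neg, eq_neg_iff_add_eq_zero,
        ← two_smul F, smul_smul] at h3
      have h4 : (2 * (g j.succ * u)) • (1 : A) = 0 := by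
        have h5 := congrArg (fun t => γ j * t * γ k) h3
        simpa [← mul_assoc, h2 j, h2 k] using h5
      have h6 := (smul_eq_zero.mp h4).resolve_right one_ne_zero
      exact (mul_eq_zero.mp h6).resolve_left two_ne_zero
    have hs6 : s = 0 := by rw [hs4 0, hs5 0, zero_smul]
    have hg0 : g 0 = 0 := by
      have h3 : (g 0 * c) • ω = 0 := by
        rw [hs6] at hs1
        exact neg_eq_zero.mp hs1.symm
      have h4 : (g 0 * c * ε) • (1 : A) = 0 := by
        rw [mul_smul, ← hωω, ← smul_mul_assoc, h3, zero_mul]
      have h5 := (smul_eq_zero.mp h4).resolve_right one_ne_zero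
      simpa [hc0, hε] using h5
    intro i
    refine Fin.cases hg0 (fun i => ?_) i
    exact (mul_eq_zero.mp (hs5 i)).resolve_right hu0
  · intro i
    refine Fin.cases ?_ (fun i => ?_) i
    · simp only [Fin.succAbove_zero, Fin.cons_succ, Fin.cons_zero, Fin.val_zero]
      rw [stdAlt_antiComm (m + 1) _ hanti, prod_smul, ← hω, smul_smul, smul_smul, hc]
      congr 1
      simp [pow_succ, hev]
    · obtain ⟨m', rfl⟩ : ∃ m', m = m' + 1 := Nat.exists_eq_succ_of_ne_zero hm0
      rw [stdAlt_central (m' + 1) _
        (by simpa using hanti.comp _ (Fin.succAbove_right_injective (p := i)))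
        (by intro j; simp [hcomm, smul_smul, mul_comm]), if_pos hm]
      simp only [Fin.succ_succAbove_zero, Fin.succ_succAbove_succ, Fin.cons_zero, Fin.cons_succ,
        Fin.val_succ]
      rw [prod_smul, hom i]
      simp only [smul_mul_assoc, mul_smul_comm, smul_smul]
      rw [← mul_assoc ω, ← hcomm i, mul_assoc (γ i), hωω]
      simp only [mul_smul_comm, mul_one, smul_smul]
      congr 1
      have h7 : (-1 : F) ^ (m' + 1 + 1 + ((i : ℕ) + 1 + 1) + 1) = (-1) ^ (i : ℕ) := by
        have : m' + 1 + 1 + ((i : ℕ) + 1 + 1) + 1 = (m' + 1) + (i : ℕ) + 4 := by ring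
        rw [this, pow_add, pow_add, hev]
        norm_num
      rw [h7, hc]
      linear_combination (-((-1 : F) ^ (i : ℕ)) * u) * hu'

end

theorem embedding (F : Type u) [Field F] [IsAlgClosed F] [CharZero F] (n : ℕ) (hn : 3 ≤ n)
    (hodd : Odd n) (V : Type v) [AddCommGroup V] [Module F V]
    (e : Module.Basis (Fin (n + 1)) F V) (br : V [⋀^Fin n]→ₗ[F] V)
    (hbr : ∀ i : Fin (n + 1),
      br (fun k => e (i.succAbove k)) = (-1 : F) ^ (n + ((i : ℕ) + 1) + 1) • e i) :
    ∃ (N : ℕ) (j : V →ₗ[F] Matrix (Fin N) (Fin N) F), Function.Injective j ∧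
      ∀ v : Fin n → V, j (br v) =
        ∑ σ : Perm (Fin n), Perm.sign σ • (List.ofFn fun k => j (v (σ k))).prod := by
  obtain ⟨m, rfl⟩ : ∃ m, n = m + 1 := ⟨n - 1, by omega⟩
  have hm : Even m := by
    rcases hodd with ⟨t, ht⟩
    exact ⟨t, by omega⟩
  obtain ⟨A, _, _, _, _, γ, h1, h2⟩ := exists_gamma F (m + 1)
  obtain ⟨X, hX, hrel⟩ := exists_family (F := F) m hm (by omega) γ h1 h2
  let j₀ : V →ₗ[F] A := e.constr F X
  have hj₀ : Function.Injective j₀ := e.injective_constr_of_linearIndependent hX
  have hj₀e : ∀ i, j₀ (e i) = X i := fun i => by simp [j₀]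
  have key : j₀.compAlternatingMap br = (stdAlt F A (m + 1)).compLinearMap j₀ := by
    refine Module.Basis.ext_alternating e fun w hw => ?_
    obtain ⟨i, τ, hτ⟩ := exists_perm_succAbove w hw
    have hw' : (fun k => e (w k)) = (fun k => e (i.succAbove k)) ∘ τ := by
      ext k
      simp [hτ]
    rw [hw', AlternatingMap.map_perm, AlternatingMap.map_perm]
    congr 1
    simp only [LinearMap.compAlternatingMap_apply, AlternatingMap.compLinearMap_apply, hbr,
      map_smul, hj₀e]
    exact (hrel i).symm
  let b := Module.finBasis F A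
  let φ := Algebra.leftMulMatrix b
  refine ⟨Module.finrank F A, φ.toLinearMap ∘ₗ j₀,
    (Algebra.leftMulMatrix_injective b).comp hj₀, fun v => ?_⟩
  have h3 : j₀ (br v) = stdAlt F A (m + 1) fun k => j₀ (v k) := by
    simpa using congrArg (fun t => t v) key
  simp only [LinearMap.comp_apply, AlgHom.toLinearMap_apply]
  rw [h3, stdAlt_apply, map_sum]
  refine Finset.sum_congr rfl fun σ _ => ?_
  rw [Units.smul_def, Units.smul_def, map_zsmul, map_list_prod, List.map_ofFn]
  rfl

end Pool.Agent.Work.MP_2df8e9_al
end
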